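import Pool.Agent.Helper2.GV.FinV
import Pool.Agent.Helper2.GV.SmD

/-!
# The determinantal conjecture for 4×4 matrices: a test on the spectra
-/

set_option autoImplicit false

namespace Pool.Agent.Helper2.Slots.FourByFourDraft

open Matrix Equiv

/-- the 24 points -/
noncomputable def z (σ : Perm (Fin 4)) (a b : Fin 4 → ℂ) : ℂ := ∏ i, (a i + b (σ i))

/-- the 3-cycle `1 ↦ 2 ↦ 3 ↦ 1` of the indices `0, 1, 2, 3` -/
def c : Perm (Fin 4) := swap 1 2 * swap 2 3

/-- the 48 test points (`s = c` or `s = c⁻¹`) -/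
noncomputable def y (s h : Perm (Fin 4)) (a b : Fin 4 → ℂ) : ℂ :=
  (z (h * swap 0 1) a b + z (h * swap 0 2) a b + z (h * swap 0 3) a b + z (h * s) a b
    - z h a b) / 3

/-- the spectra for which all test points are in the convex hull of the 24 points -/
def Good (a b : Fin 4 → ℂ) : Prop :=
  ∀ h : Perm (Fin 4), y c h a b ∈ convexHull ℝ (Set.range fun σ : Perm (Fin 4) => z σ a b) ∧
    y c⁻¹ h a b ∈ convexHull ℝ (Set.range fun σ : Perm (Fin 4) => z σ a b)

/-- (1) For all unitary 4×4 matrices `U`, `V` the determinant of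
`U diag(a) U* + V diag(b) V*` is a convex combination of the 24 points `z σ` and of the 48 test
points, with weights that do not depend on `a`, `b`.

(2) If the spectra `a`, `b` are `Good`, the determinantal conjecture holds for all pairs of normal
matrices with these spectra.

(3) All spectra in some nonempty open set are `Good`; and if, with `p i = ∏ (m ≠ i), a m`, there is no
permutation `τ` for which the numbers `(p i - p k) * (b (τ j) - b (τ l))`, `i, j, k, l` different, lie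
on one real line through `0`, then `a`, `t b` is `Good` for all small complex `t`. -/
theorem result :
    (∀ U ∈ unitaryGroup (Fin 4) ℂ, ∀ V ∈ unitaryGroup (Fin 4) ℂ,
      ∃ w u v : Perm (Fin 4) → ℝ, (∀ σ, 0 ≤ w σ) ∧ (∀ h, 0 ≤ u h) ∧ (∀ h, 0 ≤ v h) ∧
        ∑ σ, w σ + ∑ h, u h + ∑ h, v h = 1 ∧ ∀ a b : Fin 4 → ℂ,
          (U * diagonal a * star U + V * diagonal b * star V).det
            = ∑ σ, (w σ : ℂ) * z σ a b + ∑ h, (u h : ℂ) * y c h a b
              + ∑ h, (v h : ℂ) * y c⁻¹ h a b) ∧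
    (∀ a b : Fin 4 → ℂ, Good a b →
      ∀ U ∈ unitaryGroup (Fin 4) ℂ, ∀ V ∈ unitaryGroup (Fin 4) ℂ,
        (U * diagonal a * star U + V * diagonal b * star V).det
          ∈ convexHull ℝ (Set.range fun σ : Perm (Fin 4) => ∏ i, (a i + b (σ i)))) ∧
    (∃ O : Set ((Fin 4 → ℂ) × (Fin 4 → ℂ)), IsOpen O ∧ O.Nonempty ∧ ∀ x ∈ O, Good x.1 x.2) ∧
    ∀ a b : Fin 4 → ℂ,
      (∀ (τ : Perm (Fin 4)) (ω : ℂ), (∀ i j k l : Fin 4, [i, j, k, l].Nodup →
        (ω * ((∏ m ∈ Finset.univ.erase i, a m - ∏ m ∈ Finset.univ.erase k, a m)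
          * (b (τ j) - b (τ l)))).re = 0) → ω = 0) →
      ∃ δ : ℝ, 0 < δ ∧ ∀ t : ℂ, ‖t‖ < δ → Good a (t • b) := by
  have hc : c⁻¹ = Pool.Agent.Helper2.GV.cc' := by decide +kernel
  have hy : ∀ (s h : Perm (Fin 4)) (a b : Fin 4 → ℂ),
      y s h a b = Pool.Agent.Helper2.GV.VV s h (a, b) := fun _ _ _ _ => rfl
  refine ⟨fun U hU V hV => ?_, fun a b hg U hU V hV => ?_, ?_, fun a b hg => ?_⟩
  · obtain ⟨w, u, v, h1, h2, h3, h4, h5⟩ := Pool.Agent.Helper2.GV.main1 U V hU hV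
    refine ⟨w, u, v, h1, h2, h3, h4, fun a b => ?_⟩
    rw [hc]
    exact h5 a b
  · refine Pool.Agent.Helper2.GV.main2 U V hU hV (a, b) fun h => ?_
    have h1 := hg h
    rw [hc] at h1
    exact h1
  · obtain ⟨O, h1, h2, h3⟩ := Pool.Agent.Helper2.GV.open_set
    refine ⟨O, h1, h2, fun x hx h => ?_⟩
    rw [hc]
    exact h3 x hx h
  · obtain ⟨δ, h1, h2⟩ := Pool.Agent.Helper2.GV.sm_small a b hg
    refine ⟨δ, h1, fun t ht h => ?_⟩
    rw [hc]
    exact h2 t ht h

end Pool.Agent.Helper2.Slots.FourByFourDraft
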