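import Mathlib
import Pool.Agent.Helper2.OS.Conj

set_option autoImplicit false

namespace Pool.Agent.Helper2.Slots.OneNonrealSlot

open Matrix Complex
open scoped ComplexConjugate

/-- The determinantal conjecture of Marcus and de Oliveira holds for the normal matrices
`A = U1 diag(a) U1*` and `B = U2 diag(b) U2*` if `A` has at most one non-real eigenvalue `a i0`
and one of the following holds: the matrix `U1* B U1` of `B` in the eigenbasis of `A` is real; or
the spectrum of `B` is closed under complex conjugation and `det(A_s + B)` is real for every real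
`s`, where `A_s` is `A` with the eigenvalue `a i0` replaced by `s`. -/
theorem result (n : Type*) [Fintype n] [DecidableEq n] (i0 : n) (a b : n → ℂ)
    (U1 U2 : unitary (Matrix n n ℂ))
    (ha : ∀ i, i ≠ i0 → (a i).im = 0)
    (hB : (∀ i j, ((star (U1 : Matrix n n ℂ) * (U2 * diagonal b * star U2) * U1) i j).im = 0) ∨
      ((∃ c : Equiv.Perm n, ∀ j, conj (b j) = b (c j)) ∧
        ∀ s : ℝ, (U1 * diagonal (Function.update a i0 (s : ℂ)) * star U1
          + U2 * diagonal b * star U2).det.im = 0)) :
    (U1 * diagonal a * star U1 + U2 * diagonal b * star U2).det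
      ∈ convexHull ℝ { ∏ i, (a i + b (σ i)) | σ : Equiv.Perm n } := by
  rcases hB with hB | ⟨hc, hs⟩
  · exact Pool.Agent.Helper2.OS.oneNonreal_real i0 a b U1 U2 ha hB
  · exact Pool.Agent.Helper2.OS.oneNonreal i0 a b U1 U2 ha hc hs

end Pool.Agent.Helper2.Slots.OneNonrealSlot
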