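import Pool.Agent.Helper2.RF.R6

/-!
# The determinantal conjecture for eigenbases which differ by a complex reflection
-/

set_option autoImplicit false

namespace Pool.Agent.Helper2.Slots.ReflectionsDraft

open Matrix

/-- Let `A = U diag(a) U*` and `B = U diag(b) U*` be commuting normal `n × n` matrices (any `n`, any
spectra), and `R = 1 - (1 - ζ) x x*` with a unit vector `x` and `|ζ| = 1` (a complex reflection).  Then
`det (A + R B R*)` is in the convex hull of the points `∏ i, (a_i + b_(σ i))`, i.e. the determinantal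
conjecture of Marcus and de Oliveira holds for the normal matrices `A` and `R B R*`. -/
theorem result (n : Type*) [Fintype n] [DecidableEq n] (a b x : n → ℂ) (ζ : ℂ)
    (hx : ∑ i, ‖x i‖ ^ 2 = 1) (hζ : ‖ζ‖ = 1) (U : Matrix n n ℂ) (hU : U ∈ unitaryGroup n ℂ)
    (A B R : Matrix n n ℂ) (hA : A = U * diagonal a * star U) (hB : B = U * diagonal b * star U)
    (hR : R = 1 - (1 - ζ) • vecMulVec x (star x)) :
    (A + R * B * star R).det ∈ convexHull ℝ { ∏ i, (a i + b (σ i)) | σ : Equiv.Perm n } := by
  subst hA hB hR
  refine Pool.Agent.Helper2.RF.rf_main a b x ζ ?_ ?_ U hU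
  · rw [Complex.normSq_eq_norm_sq, hζ]
    norm_num
  · rw [← hx]
    refine Finset.sum_congr rfl fun i _ => ?_
    rw [Complex.normSq_eq_norm_sq]

end Pool.Agent.Helper2.Slots.ReflectionsDraft
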